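import Pool.Agent.Run7.h198.CA.Defs

/-!
# The piece RBASE of `Run7.h198.CA` (helper586)
-/

set_option autoImplicit false

namespace Pool.Agent.Run7.h586.CA

open Finset Filter Topology Pool.Agent.Run7.h198.CA

theorem t_RBASE (hB : S_BASE) : S_RBASE := by
  intro n p a b hab hp ε hε
  have hr : 1 < Real.exp ε := Real.one_lt_exp_iff.2 hε
  set A : ℝ := 2 * (2 * p * 3 ^ (2 * p)) with hA
  have hp0 : (0 : ℝ) < p := by exact_mod_cast hp
  have hA0 : 0 < A := by positivity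
  have hlim := tendsto_pow_const_div_const_pow_of_one_lt (2 * p + 1) hr
  have hev : ∀ᶠ t : ℕ in atTop, (t : ℝ) ^ (2 * p + 1) / Real.exp ε ^ t < 1 / A :=
    hlim.eventually (gt_mem_nhds (by positivity))
  obtain ⟨t0, ht0⟩ := eventually_atTop.1 hev
  refine ⟨max t0 1, fun t ht => ?_⟩
  have h1 := ht0 t ((le_max_left _ _).trans ht)
  have ht1 : 1 ≤ t := (le_max_right _ _).trans ht
  have ht1' : (1 : ℝ) ≤ t := by exact_mod_cast ht1
  obtain ⟨S, hS, hc⟩ := hB n p t a b hab hp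
  have h4 := Nat.four_pow_le_two_mul_self_mul_centralBinom t (by omega)
  have h5 : 4 ^ t ≤ 2 * t * ((2 * p * (2 * t + 1) ^ (2 * p)) * S) := h4.trans (Nat.mul_le_mul_left _ hc)
  have hS1 : 1 ≤ S := by
    rcases Nat.eq_zero_or_pos S with h | h
    · rw [h, mul_zero, mul_zero] at h5
      have : 0 < 4 ^ t := by positivity
      omega
    · exact h
  refine ⟨S, hS1, hS, ?_⟩
  have hS0 : (0 : ℝ) < S := by exact_mod_cast hS1
  have h6 : (4 : ℝ) ^ t ≤ 2 * t * ((2 * p * (2 * t + 1) ^ (2 * p)) * S) := by exact_mod_cast h5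
  have hrt : 0 < Real.exp ε ^ t := by positivity
  have h7 : A * (t : ℝ) ^ (2 * p + 1) ≤ Real.exp ε ^ t := by
    rw [div_lt_iff₀ hrt, one_div, ← div_eq_inv_mul, lt_div_iff₀ hA0] at h1
    linarith
  have h8 : 2 * (t : ℝ) * (2 * p * (2 * t + 1) ^ (2 * p)) ≤ A * (t : ℝ) ^ (2 * p + 1) := by
    have h9 : (2 * (t : ℝ) + 1) ^ (2 * p) ≤ (3 * t) ^ (2 * p) :=
      pow_le_pow_left₀ (by positivity) (by linarith) _
    calc 2 * (t : ℝ) * (2 * p * (2 * t + 1) ^ (2 * p)) ≤ 2 * (t : ℝ) * (2 * p * (3 * t) ^ (2 * p)) := by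
          gcongr
      _ = A * (t : ℝ) ^ (2 * p + 1) := by rw [hA, mul_pow]; ring
  have h10 : (4 : ℝ) ^ t ≤ Real.exp ε ^ t * S := by
    calc (4 : ℝ) ^ t ≤ 2 * t * ((2 * p * (2 * t + 1) ^ (2 * p)) * S) := h6
      _ = (2 * (t : ℝ) * (2 * p * (2 * t + 1) ^ (2 * p))) * S := by ring
      _ ≤ Real.exp ε ^ t * S := mul_le_mul_of_nonneg_right (h8.trans h7) hS0.le
  have h11 := Real.log_le_log (by positivity) h10
  rw [Real.log_mul hrt.ne' hS0.ne', Real.log_pow, Real.log_pow, Real.log_exp] at h11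
  have h12 : Real.log 4 = 2 * Real.log 2 := by
    rw [show (4 : ℝ) = 2 ^ 2 by norm_num, Real.log_pow]
    push_cast
    ring
  rw [h12] at h11
  linarith

end Pool.Agent.Run7.h586.CA
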